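import Mathlib

set_option autoImplicit false

/-!
Complex Chebyshev systems on compact spaces: closed subsets with large complement, and spaces that
split into two large clopen pieces.

Idea.  Let `x_1, …, x_n` be a complex Chebyshev system on `Q` and let `K ⊆ Q` be closed with at
least `n - 1` points `p_1, …, p_(n-2), q` outside.  Take nonzero combinations `u`, `v` of the `x_k`,
both vanishing at `p_1, …, p_(n-2)`, with `u` vanishing also at a point `a` of `K` and `v` vanishing
also at `q`.  Then `v` has no zero on `K`, and `u / v` is injective on `K`: if `u / v` takes the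
value `c` at two points of `K`, then `u - c v` vanishes at `n` points, so `u = c v`, so `u` vanishes
at `n` points.
-/

open Topology

universe u

namespace Pool.Agent.Results.MP_e9314e_an.SplitSpaces

/-- `x_1, …, x_n` is a complex Chebyshev system on `Q`: `Q` has at least `n + 1` points and every
combination with a nonzero coefficient vector vanishes at no more than `n - 1` points of `Q`. -/
def IsChebyshevSystem {Q : Type*} [TopologicalSpace Q] {n : ℕ} (x : Fin n → C(Q, ℂ)) : Prop :=
  ((n + 1 : ℕ) : ℕ∞) ≤ (Set.univ : Set Q).encard ∧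
  ∀ α : Fin n → ℂ, α ≠ 0 → {q : Q | ∑ k, α k * x k q = 0}.encard ≤ ((n - 1 : ℕ) : ℕ∞)

section
variable {Q : Type*} [TopologicalSpace Q] {n : ℕ}

/-- a coefficient vector vanishing at `n` distinct points is zero -/
theorem eq_zero_of_zeros {x : Fin n → C(Q, ℂ)} (hx : IsChebyshevSystem x) (hn : 1 ≤ n)
    (α : Fin n → ℂ) (S : Set Q) (hS : (n : ℕ∞) ≤ S.encard)
    (h : ∀ q ∈ S, ∑ k, α k * x k q = 0) : α = 0 := by
  by_contra hα
  have h1 := hx.2 α hα
  have h2 : S.encard ≤ {q : Q | ∑ k, α k * x k q = 0}.encard := Set.encard_le_encard h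
  have h3 : (n : ℕ∞) ≤ ((n - 1 : ℕ) : ℕ∞) := hS.trans (h2.trans h1)
  have h4 : n ≤ n - 1 := by exact_mod_cast h3
  omega

/-- a nonzero coefficient vector vanishing at `m < n` prescribed points -/
theorem exists_vanish (x : Fin n → C(Q, ℂ)) {m : ℕ} (hm : m < n) (p : Fin m → Q) :
    ∃ α : Fin n → ℂ, α ≠ 0 ∧ ∀ i, ∑ k, α k * x k (p i) = 0 := by
  let f : (Fin n → ℂ) →ₗ[ℂ] (Fin m → ℂ) :=
    LinearMap.pi fun i => ∑ k, (x k (p i)) • (LinearMap.proj k : (Fin n → ℂ) →ₗ[ℂ] ℂ)
  have hf : LinearMap.ker f ≠ ⊥ := by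
    apply LinearMap.ker_ne_bot_of_finrank_lt
    simpa using hm
  obtain ⟨α, hα, hα0⟩ := (Submodule.ne_bot_iff _).1 hf
  refine ⟨α, hα0, fun i => ?_⟩
  have h1 : f α i = 0 := by rw [LinearMap.mem_ker.1 hα]; rfl
  have h2 : f α i = ∑ k, x k (p i) * α k := by
    simp [f, LinearMap.pi_apply, LinearMap.sum_apply]
  rw [h2] at h1
  rw [← h1]
  exact Finset.sum_congr rfl fun k _ => mul_comm _ _

/-- the key construction -/
theorem exists_inj_on {x : Fin n → C(Q, ℂ)} (hn : 2 ≤ n) (hx : IsChebyshevSystem x)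
    (K : Set Q) (hK : ((n - 1 : ℕ) : ℕ∞) ≤ (Kᶜ).encard) :
    ∃ f : K → ℂ, Continuous f ∧ Function.Injective f := by
  obtain ⟨m, rfl⟩ : ∃ m, n = m + 2 := ⟨n - 2, by omega⟩
  rcases K.eq_empty_or_nonempty with hKe | ⟨a, ha⟩
  · subst hKe
    refine ⟨fun _ => 0, continuous_const, fun y => ?_⟩
    exact absurd y.2 (Set.notMem_empty _)
  -- choose `m + 1` distinct points outside of `K`
  obtain ⟨T, hTK, hT⟩ : ∃ T ⊆ Kᶜ, T.encard = ((m + 1 : ℕ) : ℕ∞) :=
    Set.exists_subset_encard_eq (by simpa using hK)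
  have hTfin : T.Finite := Set.finite_of_encard_eq_coe hT
  have hTcard : hTfin.toFinset.card = m + 1 := by
    have := hTfin.encard_eq_coe_toFinset_card
    rw [hT] at this
    exact_mod_cast this.symm
  let e : Fin (m + 1) ≃ hTfin.toFinset := (Finset.equivFinOfCardEq hTcard).symm
  let P : Fin (m + 1) → Q := fun i => (e i : Q)
  have hPinj : Function.Injective P := fun i j h => e.injective (Subtype.ext h)
  have hPK : ∀ i, P i ∉ K := fun i => hTK (by
    have := (e i).2
    simpa using (Set.Finite.mem_toFinset hTfin).1 this)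
  let p : Fin m → Q := fun i => P i.castSucc
  let q : Q := P (Fin.last m)
  obtain ⟨α, hα0, hα⟩ := exists_vanish x (m := m + 1) (by omega) (Fin.snoc (α := fun _ => Q) p a)
  obtain ⟨β, hβ0, hβ⟩ := exists_vanish x (m := m + 1) (by omega) P
  have hαp : ∀ i : Fin m, ∑ k, α k * x k (p i) = 0 := fun i => by
    have := hα i.castSucc
    rwa [Fin.snoc_castSucc] at this
  have hαa : ∑ k, α k * x k a = 0 := by
    have := hα (Fin.last m)
    rwa [Fin.snoc_last] at this
  -- sets of `m + 2` points
  have card_insert : ∀ (y : Q), y ∈ K → ((m + 2 : ℕ) : ℕ∞) ≤ (insert y T).encard := by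
    intro y hy
    have : y ∉ T := fun h => hTK h hy
    rw [Set.encard_insert_of_notMem this, hT]
    push_cast
    rfl
  have hTP : ∀ t ∈ T, ∃ i, P i = t := by
    intro t ht
    refine ⟨e.symm ⟨t, by simpa using ht⟩, ?_⟩
    simp [P]
  have hβne : ∀ y ∈ K, ∑ k, β k * x k y ≠ 0 := by
    intro y hy h0
    apply hβ0
    refine eq_zero_of_zeros hx (by omega) β (insert y T) (card_insert y hy) ?_
    rintro z (rfl | hz)
    · exact h0
    · obtain ⟨i, rfl⟩ := hTP z hz
      exact hβ i
  have hαq : ∑ k, α k * x k q ≠ 0 := by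
    intro h0
    apply hα0
    refine eq_zero_of_zeros hx (by omega) α (insert a T) (card_insert a ha) ?_
    rintro z (rfl | hz)
    · exact hαa
    · obtain ⟨i, rfl⟩ := hTP z hz
      refine Fin.lastCases ?_ (fun j => ?_) i
      · exact h0
      · exact hαp j
  refine ⟨fun y => (∑ k, α k * x k y) / (∑ k, β k * x k y), ?_, ?_⟩
  · refine Continuous.div ?_ ?_ (fun y => hβne y y.2)
    · exact continuous_finsetSum _ fun k _ =>
        continuous_const.mul ((x k).continuous.comp continuous_subtype_val)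
    · exact continuous_finsetSum _ fun k _ =>
        continuous_const.mul ((x k).continuous.comp continuous_subtype_val)
  · intro y z hyz
    by_contra hne
    have hne' : (y : Q) ≠ z := fun h => hne (Subtype.ext h)
    dsimp only at hyz
    set c : ℂ := (∑ k, α k * x k y) / (∑ k, β k * x k y) with hc
    have h1 : ∑ k, (α k - c * β k) * x k y = 0 := by
      have : ∑ k, α k * x k y = c * ∑ k, β k * x k y := by
        rw [hc, div_mul_cancel₀ _ (hβne y y.2)]
      simp only [sub_mul, Finset.sum_sub_distrib, mul_assoc, ← Finset.mul_sum, this, sub_self]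
    have h2 : ∑ k, (α k - c * β k) * x k z = 0 := by
      have : ∑ k, α k * x k z = c * ∑ k, β k * x k z := by
        rw [hyz, div_mul_cancel₀ _ (hβne z z.2)]
      simp only [sub_mul, Finset.sum_sub_distrib, mul_assoc, ← Finset.mul_sum, this, sub_self]
    have h3 : ∀ i : Fin m, ∑ k, (α k - c * β k) * x k (p i) = 0 := by
      intro i
      have hb : ∑ k, β k * x k (p i) = 0 := hβ i.castSucc
      simp only [sub_mul, Finset.sum_sub_distrib, mul_assoc, ← Finset.mul_sum, hαp i, hb, mul_zero,
        sub_self]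
    -- the `m + 2` points `p_i, y, z`
    have h4 : (fun k => α k - c * β k) = 0 := by
      refine eq_zero_of_zeros hx (by omega) (fun k => α k - c * β k)
        (insert (y : Q) (insert (z : Q) (Set.range p))) ?_ ?_
      · have hpinj : Function.Injective p := fun i j h => Fin.castSucc_injective _ (hPinj h)
        have hr : (Set.range p).encard = (m : ℕ∞) := by
          rw [← Set.image_univ, hpinj.encard_image, Set.encard_univ]
          simp
        have hz : (z : Q) ∉ Set.range p := by
          rintro ⟨i, hi⟩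
          exact hPK _ (hi ▸ z.2)
        have hy : (y : Q) ∉ insert (z : Q) (Set.range p) := by
          rintro (h | ⟨i, hi⟩)
          · exact hne' h
          · exact hPK _ (hi ▸ y.2)
        rw [Set.encard_insert_of_notMem hy, Set.encard_insert_of_notMem hz, hr]
        push_cast
        rw [add_assoc]
        norm_num
      · rintro w (rfl | rfl | ⟨i, rfl⟩)
        · exact h1
        · exact h2
        · exact h3 i
    apply hαq
    have h5 : ∀ k, α k = c * β k := fun k => sub_eq_zero.1 (congrFun h4 k)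
    have h6 : ∑ k, β k * x k q = 0 := hβ (Fin.last m)
    simp only [h5, mul_assoc, ← Finset.mul_sum, h6, mul_zero]

/-- a subset of the plane carries Chebyshev systems of every order -/
theorem system_of_injective (f : Q → ℂ) (hf : Continuous f) (hinj : Function.Injective f)
    (hn : 1 ≤ n) (hcard : ((n + 1 : ℕ) : ℕ∞) ≤ (Set.univ : Set Q).encard) :
    ∃ x : Fin n → C(Q, ℂ), IsChebyshevSystem x := by
  refine ⟨fun k => ⟨fun q => f q ^ (k : ℕ), hf.pow _⟩, hcard, fun α hα => ?_⟩
  classical
  let P : Polynomial ℂ := ∑ k : Fin n, Polynomial.C (α k) * Polynomial.X ^ (k : ℕ)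
  have hcoeff : ∀ k : Fin n, P.coeff k = α k := by
    intro k
    simp only [P, Polynomial.finsetSum_coeff, Polynomial.coeff_C_mul_X_pow]
    rw [Finset.sum_eq_single k]
    · simp
    · intro j _ hj
      rw [if_neg]
      intro h
      exact hj (Fin.ext h.symm)
    · simp
  have hP0 : P ≠ 0 := by
    intro h
    apply hα
    funext k
    rw [← hcoeff k, h]
    simp
  have hdeg : P.natDegree ≤ n - 1 := by
    refine Polynomial.natDegree_sum_le_of_forall_le _ _ fun k _ => ?_
    refine (Polynomial.natDegree_C_mul_X_pow_le _ _).trans ?_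
    have := k.2
    omega
  have hsub : f '' {q : Q | ∑ k, α k * (⟨fun q => f q ^ (k : ℕ), hf.pow _⟩ : C(Q, ℂ)) q = 0}
      ⊆ (P.roots.toFinset : Set ℂ) := by
    rintro _ ⟨q, hq, rfl⟩
    simp only [Set.mem_ofPred_eq, ContinuousMap.coe_mk] at hq
    simp only [Multiset.mem_toFinset, Finset.mem_coe, Polynomial.mem_roots hP0,
      Polynomial.IsRoot.def, P, Polynomial.eval_finsetSum, Polynomial.eval_mul,
      Polynomial.eval_C, Polynomial.eval_pow, Polynomial.eval_X]
    exact hq
  calc {q : Q | ∑ k, α k * (⟨fun q => f q ^ (k : ℕ), hf.pow _⟩ : C(Q, ℂ)) q = 0}.encard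
      = (f '' {q : Q | ∑ k, α k * (⟨fun q => f q ^ (k : ℕ), hf.pow _⟩ : C(Q, ℂ)) q = 0}).encard :=
        (hinj.encard_image _).symm
    _ ≤ (P.roots.toFinset : Set ℂ).encard := Set.encard_le_encard hsub
    _ = (P.roots.toFinset.card : ℕ∞) := Set.encard_coe_eq_coe_finsetCard _
    _ ≤ ((n - 1 : ℕ) : ℕ∞) := by
        have h1 := Multiset.toFinset_card_le P.roots
        have h2 := P.card_roots' 
        exact_mod_cast (h1.trans h2).trans hdeg

/-- homeomorphic to a subset of the plane -/
def IsPlanar (X : Type*) [TopologicalSpace X] : Prop := ∃ f : X → ℂ, IsEmbedding f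

/-- closed sets with at least `n - 1` points outside are planar -/
theorem planar_of_closed [CompactSpace Q] {x : Fin n → C(Q, ℂ)} (hn : 2 ≤ n)
    (hx : IsChebyshevSystem x) (K : Set Q) (hKc : IsClosed K)
    (hK : ((n - 1 : ℕ) : ℕ∞) ≤ (Kᶜ).encard) : IsPlanar K := by
  obtain ⟨f, hf, hinj⟩ := exists_inj_on hn hx K hK
  have : CompactSpace K := isCompact_iff_compactSpace.1 hKc.isCompact
  exact ⟨f, (hf.isClosedEmbedding hinj).isEmbedding⟩

/-- two planar clopen pieces of a compact space make a planar space -/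
theorem planar_of_clopen [CompactSpace Q] (A : Set Q) (hA : IsClopen A) (h1 : IsPlanar A)
    (h2 : IsPlanar (Aᶜ : Set Q)) : IsPlanar Q := by
  classical
  obtain ⟨f, hf⟩ := h1
  obtain ⟨g, hg⟩ := h2
  have : CompactSpace A := isCompact_iff_compactSpace.1 hA.isClosed.isCompact
  have : CompactSpace (Aᶜ : Set Q) := isCompact_iff_compactSpace.1 hA.compl.isClosed.isCompact
  obtain ⟨R, hR⟩ := (isCompact_range hf.continuous).isBounded.exists_norm_le
  obtain ⟨S, hS⟩ := (isCompact_range hg.continuous).isBounded.exists_norm_le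
  have hR' : ∀ y, ‖f y‖ ≤ R := fun y => hR _ ⟨y, rfl⟩
  have hS' : ∀ y, ‖g y‖ ≤ S := fun y => hS _ ⟨y, rfl⟩
  let T : ℝ := |R| + |S| + 1
  let h : Q → ℂ := fun y => if hy : y ∈ A then f ⟨y, hy⟩ else g ⟨y, hy⟩ + (T : ℂ)
  have hhA : ∀ y (hy : y ∈ A), h y = f ⟨y, hy⟩ := fun y hy => by simp [h, hy]
  have hhB : ∀ y (hy : y ∉ A), h y = g ⟨y, hy⟩ + (T : ℂ) := fun y hy => by simp [h, hy]
  have hcont : Continuous h := by
    rw [← continuousOn_univ, ← Set.union_compl_self A]
    refine ContinuousOn.union_of_isOpen ?_ ?_ hA.isOpen hA.compl.isOpen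
    · rw [continuousOn_iff_continuous_domRestrict]
      have : A.domRestrict h = f := by
        funext y; simp only [Set.domRestrict_apply]; rw [hhA y y.2]
      rw [this]; exact hf.continuous
    · rw [continuousOn_iff_continuous_domRestrict]
      have : Aᶜ.domRestrict h = fun y => g y + (T : ℂ) := by
        funext y; simp only [Set.domRestrict_apply]; rw [hhB y y.2]
      rw [this]; exact hg.continuous.add continuous_const
  have hsep : ∀ y z, y ∈ A → z ∉ A → h y ≠ h z := by
    intro y z hy hz heq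
    rw [hhA y hy, hhB z hz] at heq
    have h1 : ‖(T : ℂ)‖ ≤ ‖f ⟨y, hy⟩‖ + ‖g ⟨z, hz⟩‖ := by
      have : (T : ℂ) = f ⟨y, hy⟩ - g ⟨z, hz⟩ := by rw [heq]; ring
      rw [this]; exact norm_sub_le _ _
    rw [Complex.norm_real, Real.norm_eq_abs] at h1
    have h2 : T ≤ |T| := le_abs_self T
    have h3 := hR' ⟨y, hy⟩
    have h4 := hS' ⟨z, hz⟩
    have h5 : T = |R| + |S| + 1 := rfl
    linarith [le_abs_self R, le_abs_self S]
  have hinj : Function.Injective h := by
    intro y z hyz
    by_cases hy : y ∈ A <;> by_cases hz : z ∈ A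
    · rw [hhA y hy, hhA z hz] at hyz
      exact congrArg Subtype.val (hf.injective hyz)
    · exact absurd hyz (hsep y z hy hz)
    · exact absurd hyz.symm (hsep z y hz hy)
    · rw [hhB y hy, hhB z hz] at hyz
      exact congrArg Subtype.val (hg.injective (add_right_cancel hyz))
  exact ⟨h, (hcont.isClosedEmbedding hinj).isEmbedding⟩

theorem planar_of_finite [T2Space Q] [Finite Q] : IsPlanar Q := by
  have : DiscreteTopology Q := inferInstance
  obtain ⟨m, ⟨e⟩⟩ := Finite.exists_equiv_fin Q
  have hc : Continuous (fun q : Q => ((e q : ℕ) : ℂ)) := continuous_of_discreteTopology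
  have hi : Function.Injective (fun q : Q => ((e q : ℕ) : ℂ)) := by
    intro a b hab
    have : (e a : ℕ) = (e b : ℕ) := Nat.cast_injective (R := ℂ) hab
    exact e.injective (Fin.ext this)
  exact ⟨_, (hc.isClosedEmbedding hi).isEmbedding⟩

end

/-- **Structure of the compact spaces carrying complex Chebyshev systems.** -/
theorem result :
    (∀ (Q : Type u) [TopologicalSpace Q] [CompactSpace Q] [T2Space Q] (n : ℕ), 2 ≤ n →
      (∃ x : Fin n → C(Q, ℂ), IsChebyshevSystem x) →
      (∀ K : Set Q, IsClosed K → ((n - 1 : ℕ) : ℕ∞) ≤ (Kᶜ).encard → IsPlanar K) ∧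
      (IsPlanar Q ∨
        ∃ C : Set Q, IsClopen C ∧ IsConnected C ∧ (Cᶜ).encard ≤ ((n - 2 : ℕ) : ℕ∞) ∧
          ∀ K : Set Q, IsClosed K → ¬ C ⊆ K → IsPlanar K)) ∧
    (∀ (Q : Type u) [TopologicalSpace Q] [CompactSpace Q] [T2Space Q] (n : ℕ), 2 ≤ n →
      (n + 1 : ℕ∞) ≤ (Set.univ : Set Q).encard →
      (∃ A : Set Q, IsClopen A ∧ ((n - 1 : ℕ) : ℕ∞) ≤ A.encard ∧ ((n - 1 : ℕ) : ℕ∞) ≤ (Aᶜ).encard) →
      ((∃ x : Fin n → C(Q, ℂ), IsChebyshevSystem x) ↔ IsPlanar Q)) := by
  classical
  have key : ∀ (Q : Type u) [TopologicalSpace Q] [CompactSpace Q] (n : ℕ), 2 ≤ n →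
      ∀ x : Fin n → C(Q, ℂ), IsChebyshevSystem x → ∀ A : Set Q, IsClopen A →
      ((n - 1 : ℕ) : ℕ∞) ≤ A.encard → ((n - 1 : ℕ) : ℕ∞) ≤ (Aᶜ).encard → IsPlanar Q := by
    intro Q _ _ n hn x hx A hA h1 h2
    refine planar_of_clopen A hA (planar_of_closed hn hx A hA.isClosed h2)
      (planar_of_closed hn hx _ hA.compl.isClosed ?_)
    rwa [compl_compl]
  refine ⟨?_, ?_⟩
  · intro Q _ _ _ n hn ⟨x, hx⟩
    refine ⟨fun K hK h => planar_of_closed hn hx K hK h, ?_⟩
    by_cases hpl : IsPlanar Q
    · exact Or.inl hpl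
    right
    have hinf : Infinite Q := by
      by_contra h
      rw [not_infinite_iff_finite] at h
      exact hpl planar_of_finite
    -- a clopen set or its complement has fewer than `n - 1` points
    have hsmall : ∀ A : Set Q, IsClopen A →
        A.encard ≤ ((n - 2 : ℕ) : ℕ∞) ∨ (Aᶜ).encard ≤ ((n - 2 : ℕ) : ℕ∞) := by
      intro A hA
      by_contra hcon
      push Not at hcon
      have conv : ∀ B : Set Q, ((n - 2 : ℕ) : ℕ∞) < B.encard → ((n - 1 : ℕ) : ℕ∞) ≤ B.encard := by
        intro B hB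
        have := Order.add_one_le_of_lt hB
        refine le_trans (le_of_eq ?_) this
        have : n - 1 = (n - 2) + 1 := by omega
        rw [this]; push_cast; rfl
      exact hpl (key Q n hn x hx A hA (conv _ hcon.1) (conv _ hcon.2))
    -- finite clopen sets are small
    have hfin : ∀ A : Set Q, IsClopen A → A.Finite → A.encard ≤ ((n - 2 : ℕ) : ℕ∞) := by
      intro A hA hAf
      rcases hsmall A hA with h | h
      · exact h
      · exfalso
        have h1 : (Aᶜ).Finite := Set.finite_of_encard_le_coe h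
        exact Set.infinite_univ (by rw [← Set.union_compl_self A]; exact hAf.union h1)
    -- a finite clopen set of maximal size
    obtain ⟨F, hFc, hFf, hFmax⟩ : ∃ F : Set Q, IsClopen F ∧ F.Finite ∧
        ∀ G : Set Q, IsClopen G → G.Finite → G.ncard ≤ F.ncard := by
      have hb : ∀ k, k ∈ {k : ℕ | ∃ G : Set Q, IsClopen G ∧ G.Finite ∧ G.ncard = k} →
          k ≤ n - 2 := by
        rintro k ⟨G, hG, hGf, rfl⟩
        have := hfin G hG hGf
        rw [← hGf.cast_ncard_eq] at this
        exact_mod_cast this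
      have hne : {k : ℕ | ∃ G : Set Q, IsClopen G ∧ G.Finite ∧ G.ncard = k}.Nonempty :=
        ⟨0, ∅, isClopen_empty, Set.finite_empty, by simp⟩
      have hbdd : BddAbove {k : ℕ | ∃ G : Set Q, IsClopen G ∧ G.Finite ∧ G.ncard = k} :=
        ⟨n - 2, hb⟩
      obtain ⟨F, hFc, hFf, hF⟩ := Nat.sSup_mem hne hbdd
      exact ⟨F, hFc, hFf, fun G hG hGf => hF ▸ le_csSup hbdd ⟨G, hG, hGf, rfl⟩⟩
    have hsub : ∀ G : Set Q, IsClopen G → G.Finite → G ⊆ F := by
      intro G hG hGf
      have h1 := hFmax (F ∪ G) (hFc.union hG) (hFf.union hGf)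
      have h2 : F = F ∪ G :=
        Set.eq_of_subset_of_ncard_le Set.subset_union_left h1 (hFf.union hGf)
      rw [h2]; exact Set.subset_union_right
    refine ⟨Fᶜ, hFc.compl, ?_, by rw [compl_compl]; exact hfin F hFc hFf, ?_⟩
    · -- `Fᶜ` is connected
      refine ⟨?_, ?_⟩
      · by_contra h
        rw [Set.not_nonempty_iff_eq_empty, Set.compl_empty_iff] at h
        exact Set.infinite_univ (h ▸ hFf)
      · rw [isPreconnected_iff_subset_of_disjoint]
        intro u v hu hv huv hdis
        have hA : IsClopen (Fᶜ ∩ u) := by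
          refine ⟨?_, hFc.compl.isOpen.inter hu⟩
          rw [← isOpen_compl_iff]
          have h1 : (Fᶜ ∩ u)ᶜ = F ∪ (Fᶜ ∩ v) := by
            ext y
            simp only [Set.mem_compl_iff, Set.mem_inter_iff, Set.mem_union]
            constructor
            · intro h
              by_cases hy : y ∈ F
              · exact Or.inl hy
              · exact Or.inr ⟨hy, (huv hy).resolve_left fun h' => h ⟨hy, h'⟩⟩
            · rintro (h | ⟨h1, h2⟩) ⟨h3, h4⟩
              · exact h3 h
              · have : y ∈ Fᶜ ∩ (u ∩ v) := ⟨h1, h4, h2⟩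
                rw [hdis] at this
                exact this
          rw [h1]
          exact hFc.isOpen.union (hFc.compl.isOpen.inter hv)
        rcases hsmall _ hA with h | h
        · right
          have h1 := hsub _ hA (Set.finite_of_encard_le_coe h)
          intro y hy
          exact (huv hy).resolve_left fun h' => hy (h1 ⟨hy, h'⟩)
        · left
          have h1 := hsub _ hA.compl (Set.finite_of_encard_le_coe h)
          intro y hy
          by_contra hyu
          exact hy (h1 fun h' => hyu h'.2)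
    · intro K hK hCK
      obtain ⟨y, hyF, hyK⟩ := Set.not_subset.1 hCK
      have hU : IsOpen (Fᶜ ∩ Kᶜ) := hFc.compl.isOpen.inter hK.isOpen_compl
      have hUinf : (Fᶜ ∩ Kᶜ).Infinite := by
        intro hfinU
        have h1 := hsub _ ⟨hfinU.isClosed, hU⟩ hfinU
        exact hyF (h1 ⟨hyF, hyK⟩)
      refine planar_of_closed hn hx K hK ?_
      rw [(hUinf.mono Set.inter_subset_right).encard_eq]
      exact le_top
  · intro Q _ _ _ n hn hcard ⟨A, hA, h1, h2⟩
    constructor
    · rintro ⟨x, hx⟩
      exact key Q n hn x hx A hA h1 h2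
    · rintro ⟨f, hf⟩
      exact system_of_injective f hf.continuous hf.injective (by omega) (by exact_mod_cast hcard)

end Pool.Agent.Results.MP_e9314e_an.SplitSpaces
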